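import Pool.Agent.MVS.Stmts
import Pool.Agent.Helper5_RF.Cyl
import Pool.Agent.Helper36_RF.Chr

/-!
# MVS, row HEX (helper3): scaling and norm of the exponential map
-/

noncomputable section

open scoped ContDiff Topology RealInnerProductSpace
open Set

namespace Pool.Agent.MVS.H3

open Pool.Agent.RF Pool.Agent.MVS

theorem ray_smooth {G : E5 → Bil E5} {ex : E5 × E5 → E5} (he : IsExp G ex) {x : E5}
    (hx : x ∈ Om (Fin 5)) (v : E5) : ContDiff ℝ ∞ (fun t : ℝ => ex (x, t • v)) := by
  rw [← contDiffOn_univ]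
  have h1 : ContDiffOn ℝ ∞ (fun t : ℝ => ((x, t • v) : E5 × E5)) univ :=
    (contDiff_const.prodMk (contDiff_id.smul contDiff_const)).contDiffOn
  exact he.smooth.comp h1 (fun t _ => ⟨hx, mem_univ _⟩)

theorem ray_hd {G : E5 → Bil E5} {ex : E5 × E5 → E5} (he : IsExp G ex) {x : E5}
    (hx : x ∈ Om (Fin 5)) (v : E5) (t : ℝ) :
    HasDerivAt (fun t : ℝ => ex (x, t • v)) (deriv (fun t : ℝ => ex (x, t • v)) t) t :=
  ((ray_smooth he hx v).differentiable (by simp)).differentiableAt.hasDerivAt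

theorem ray_hd2 {G : E5 → Bil E5} {ex : E5 × E5 → E5} (he : IsExp G ex) {x : E5}
    (hx : x ∈ Om (Fin 5)) (v : E5) (t : ℝ) :
    HasDerivAt (deriv (fun t : ℝ => ex (x, t • v)))
      (- chris G (ex (x, t • v)) (deriv (fun s : ℝ => ex (x, s • v)) t)
          (deriv (fun s : ℝ => ex (x, s • v)) t)) t := by
  rw [← he.geo x hx v t]
  have h1 : ContDiff ℝ ∞ (deriv (fun t : ℝ => ex (x, t • v))) :=
    ((contDiff_infty_iff_deriv).1 (ray_smooth he hx v)).2
  exact (h1.differentiable (by simp)).differentiableAt.hasDerivAt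

theorem hex (hu : UnqStatement) (hs : SpdStatement) : HexStatement := by
  intro G ex hG he
  refine ⟨fun c hc x hx v => ?_, fun x hx v hxv => ?_⟩
  · have hcx : c • x ∈ Om (Fin 5) := H5.om_smul hc hx
    have key := hu G hG 1 zero_le_one (fun t => ex (c • x, t • (c • v)))
      (fun t => c • ex (x, t • v)) (deriv (fun t : ℝ => ex (c • x, t • (c • v))))
      (fun t => c • deriv (fun t : ℝ => ex (x, t • v)) t)
      (fun t _ => ⟨he.mem _ hcx _, H5.om_smul hc (he.mem _ hx _)⟩)
      (fun t _ => ⟨(ray_hd he hcx (c • v) t).hasDerivWithinAt,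
        (ray_hd2 he hcx (c • v) t).hasDerivWithinAt⟩)
      (fun t _ => ⟨((ray_hd he hx v t).const_smul c).hasDerivWithinAt, ?_⟩)
      ?_ ?_ 1 ⟨zero_le_one, le_rfl⟩
    · have := key.1
      simpa using this
    · have h1 := ((ray_hd2 he hx v t).const_smul c).hasDerivWithinAt (s := Icc (0 : ℝ) 1)
      have h2 : c • -chris G (ex (x, t • v)) (deriv (fun s : ℝ => ex (x, s • v)) t)
          (deriv (fun s : ℝ => ex (x, s • v)) t) =
          - chris G (c • ex (x, t • v)) (c • deriv (fun s : ℝ => ex (x, s • v)) t)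
          (c • deriv (fun s : ℝ => ex (x, s • v)) t) := by
        rw [((H5.cyl chrStatement) (Fin 5) G hG (ex (x, t • v)) (he.mem x hx _)).2.2.2.2.2.1 c hc,
          RF.chris_smul_left, RF.chris_smul_right, smul_smul, smul_smul, smul_neg,
          inv_mul_cancel₀ hc.ne', one_mul]
      rw [h2] at h1
      exact h1
    · show ex (c • x, (0 : ℝ) • (c • v)) = c • ex (x, (0 : ℝ) • v)
      rw [zero_smul, zero_smul, he.zero _ hcx, he.zero _ hx]
    · show deriv (fun t : ℝ => ex (c • x, t • (c • v))) 0 = c • deriv (fun t : ℝ => ex (x, t • v)) 0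
      rw [he.init _ hcx, he.init _ hx]
  · have key := hs G hG (fun t : ℝ => ex (x, t • v)) (ray_smooth he hx v)
      (fun t => he.mem x hx _) (fun t => he.geo x hx v t) 1
    have h0 : ex (x, (0 : ℝ) • v) = x := by rw [zero_smul, he.zero _ hx]
    have h1 : ex (x, (1 : ℝ) • v) = ex (x, v) := by rw [one_smul]
    have := (key.2 (by
      show ⟪ex (x, (0 : ℝ) • v), deriv (fun t : ℝ => ex (x, t • v)) 0⟫ = (0 : ℝ)
      rw [h0, he.init _ hx, hxv])).1
    simpa only [h0, h1] using this

end Pool.Agent.MVS.H3
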